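import Mathlib
import Pool.Graph.R_seed8.H63Fed.Miranda

set_option autoImplicit false
set_option linter.unusedSectionVars false
set_option linter.style.haveILetI false

/-!
# MP_1f3233 (Q1): a maximal topologically invariant `σ`-ideal on the Hilbert cube other than `𝓜`

Q1 asks whether every maximal non-trivial topologically invariant `σ`-ideal with Borel base on the
Hilbert cube coincides with the ideal of meagre sets.  `result` answers this in the negative.

Construction.  Call a set `X` *essential* (`Ess X`) if it contains the zero set of a continuous map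
`f` to `ℝ^k` which along some singular `k`-cube satisfies the strict sign conditions of the theorem
of Poincaré and Miranda.  Essential sets are non-empty, and (`Robust`) for essential `X, Y` some
`X ∩ τ_N(Y)` is essential, where `τ_N` exchanges the coordinate blocks `[0,N)` and `[N,2N)`.

Take a maximal invariant ideal `J` of closed sets containing no essential set (Zorn's lemma).  Then
every closed `Y ∉ J` has countably many homeomorphic images `g_j(Y)` such that every closed `X ∉ J`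
has `X ∩ g_j(Y) ∉ J` for some `j` (`exists_countable`).  The space `Seqs J` of decreasing sequences
of closed sets not in `J` is a Baire space, and a generic sequence converges to a point `π`.  The
sets whose Borel hull `B` has meagre preimage `π⁻¹(B)` form the ideal `GenIdeal`.  The displayed
property of `J` makes it maximal (`exists_full`), and it contains a dense `G_δ` set: the complement
of the union of the images `τ_N(W)` of the wall `W = {x | x 0 = 1/2}`.
-/

namespace Pool.Agent.Results.MP_1f3233_gt.NonMeagerMaximal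

open Set Topology Filter

section Defs

variable {Q : Type} [TopologicalSpace Q]

/-- A `σ`-ideal of subsets of `Q`: it contains `∅`, and it is closed under subsets and countable
unions. -/
def IsSigmaIdeal (I : Set (Set Q)) : Prop :=
  ∅ ∈ I ∧ (∀ A ∈ I, ∀ B ⊆ A, B ∈ I) ∧ ∀ A : ℕ → Set Q, (∀ n, A n ∈ I) → (⋃ n, A n) ∈ I

/-- Invariance under all self-homeomorphisms of `Q`. -/
def TopInvariant (I : Set (Set Q)) : Prop :=
  ∀ A ∈ I, ∀ h : Q ≃ₜ Q, h '' A ∈ I

/-- Every member of `I` is contained in a Borel member of `I`. -/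
def HasBorelBase (I : Set (Set Q)) : Prop :=
  ∀ A ∈ I, ∃ B ∈ I, A ⊆ B ∧ @MeasurableSet Q (borel Q) B

/-- `I` does not contain the whole space and is different from `{∅}`. -/
def NonTrivial (I : Set (Set Q)) : Prop :=
  univ ∉ I ∧ I ≠ {∅}

/-- Maximality among the non-trivial topologically invariant `σ`-ideals with Borel base. -/
def IsMaximalIdeal (I : Set (Set Q)) : Prop :=
  (IsSigmaIdeal I ∧ TopInvariant I ∧ HasBorelBase I ∧ NonTrivial I) ∧
    ∀ J : Set (Set Q), IsSigmaIdeal J ∧ TopInvariant J ∧ HasBorelBase J ∧ NonTrivial J →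
      I ⊆ J → J = I

end Defs

/-! ### Part 1: the abstract construction -/

section Abstract

variable {Q : Type} [TopologicalSpace Q]

/-- Invariant ideals of closed sets containing no member of `S`. -/
structure ClosedIdeal (S : Set Q → Prop) (J : Set (Set Q)) : Prop where
  empty : ∅ ∈ J
  closed : ∀ X ∈ J, IsClosed X
  mono : ∀ X ∈ J, ∀ Y, IsClosed Y → Y ⊆ X → Y ∈ J
  union : ∀ X ∈ J, ∀ Y ∈ J, X ∪ Y ∈ J
  inv : ∀ X ∈ J, ∀ h : Q ≃ₜ Q, h '' X ∈ J
  disj : ∀ X ∈ J, ¬ S X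

/-- The hypotheses on the class `S` of essential sets. -/
structure Robust (S : Set Q → Prop) (τ : ℕ → Q ≃ₜ Q) : Prop where
  ne : ¬ S ∅
  univ : S Set.univ
  mono : ∀ X Y, S X → X ⊆ Y → S Y
  inv : ∀ X, S X → ∀ h : Q ≃ₜ Q, S (h '' X)
  inter : ∀ X Y, S X → S Y → ∃ N, S (X ∩ τ N '' Y)

variable {S : Set Q → Prop} {τ : ℕ → Q ≃ₜ Q}

theorem exists_maximal_closedIdeal (hS : Robust S τ) :
    ∃ J : Set (Set Q), Maximal (ClosedIdeal S) J := by
  have h0 : ClosedIdeal S ({∅} : Set (Set Q)) := by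
    refine ⟨rfl, ?_, ?_, ?_, ?_, ?_⟩
    · rintro X rfl; exact isClosed_empty
    · rintro X rfl Y _ hY; exact subset_empty_iff.1 hY
    · rintro X rfl Y rfl; exact union_empty ∅
    · rintro X rfl h; exact image_empty _
    · rintro X rfl; exact hS.ne
  obtain ⟨J, -, hJ⟩ := zorn_subset_nonempty {J : Set (Set Q) | ClosedIdeal S J} (by
    intro c hc hchain hne
    obtain ⟨J₀, hJ₀⟩ := hne
    refine ⟨⋃₀ c, ?_, fun J hJ => subset_sUnion_of_mem hJ⟩
    refine ⟨⟨J₀, hJ₀, (hc hJ₀).empty⟩, ?_, ?_, ?_, ?_, ?_⟩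
    · rintro X ⟨J, hJ, hX⟩; exact (hc hJ).closed X hX
    · rintro X ⟨J, hJ, hX⟩ Y hY hYX; exact ⟨J, hJ, (hc hJ).mono X hX Y hY hYX⟩
    · rintro X ⟨J, hJ, hX⟩ Y ⟨J', hJ', hY⟩
      rcases hchain.total hJ hJ' with h | h
      · exact ⟨J', hJ', (hc hJ').union X (h hX) Y hY⟩
      · exact ⟨J, hJ, (hc hJ).union X hX Y (h hY)⟩
    · rintro X ⟨J, hJ, hX⟩ h; exact ⟨J, hJ, (hc hJ).inv X hX h⟩
    · rintro X ⟨J, hJ, hX⟩; exact (hc hJ).disj X hX) {∅} h0
  exact ⟨J, hJ⟩

/-- the union of the images of `X` under a list of homeomorphisms -/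
def imgs (L : List (Q ≃ₜ Q)) (X : Set Q) : Set Q := {z | ∃ h ∈ L, z ∈ h '' X}

theorem imgs_nil (X : Set Q) : imgs [] X = ∅ := by
  ext z; simp [imgs]

theorem imgs_cons (h : Q ≃ₜ Q) (L : List (Q ≃ₜ Q)) (X : Set Q) :
    imgs (h :: L) X = h '' X ∪ imgs L X := by
  ext z; simp [imgs]

theorem isClosed_imgs (L : List (Q ≃ₜ Q)) {X : Set Q} (hX : IsClosed X) :
    IsClosed (imgs L X) := by
  induction L with
  | nil => rw [imgs_nil]; exact isClosed_empty
  | cons h L ih => rw [imgs_cons]; exact (h.isClosedMap X hX).union ih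

variable {J : Set (Set Q)}

theorem exists_cover (hJ : Maximal (ClosedIdeal S) J) {X : Set Q} (hX : IsClosed X)
    (hXJ : X ∉ J) (hmono : ∀ X Y, S X → X ⊆ Y → S Y) :
    ∃ Z ∈ J, ∃ L : List (Q ≃ₜ Q), S (Z ∪ imgs L X) := by
  by_contra hcon
  push Not at hcon
  have h1 : ClosedIdeal S {Y : Set Q | IsClosed Y ∧ ∃ Z ∈ J, ∃ L : List (Q ≃ₜ Q),
      Y ⊆ Z ∪ imgs L X} := by
    refine ⟨⟨isClosed_empty, ∅, hJ.1.empty, [], empty_subset _⟩, ?_, ?_, ?_, ?_, ?_⟩
    · rintro Y ⟨hY, -⟩; exact hY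
    · rintro Y ⟨-, Z, hZ, L, hL⟩ Y' hY' hYY'
      exact ⟨hY', Z, hZ, L, hYY'.trans hL⟩
    · rintro Y ⟨hY, Z, hZ, L, hL⟩ Y' ⟨hY', Z', hZ', L', hL'⟩
      refine ⟨hY.union hY', Z ∪ Z', hJ.1.union Z hZ Z' hZ', L ++ L', ?_⟩
      rintro z (hz | hz)
      · rcases hL hz with h | ⟨h, hh, hz'⟩
        · exact Or.inl (Or.inl h)
        · exact Or.inr ⟨h, List.mem_append_left _ hh, hz'⟩
      · rcases hL' hz with h | ⟨h, hh, hz'⟩
        · exact Or.inl (Or.inr h)
        · exact Or.inr ⟨h, List.mem_append_right _ hh, hz'⟩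
    · rintro Y ⟨hY, Z, hZ, L, hL⟩ g
      refine ⟨g.isClosedMap Y hY, g '' Z, hJ.1.inv Z hZ g, L.map fun h => h.trans g, ?_⟩
      rintro _ ⟨y, hy, rfl⟩
      rcases hL hy with h | ⟨h, hh, x, hx, rfl⟩
      · exact Or.inl ⟨y, h, rfl⟩
      · exact Or.inr ⟨h.trans g, List.mem_map.2 ⟨h, hh, rfl⟩, x, hx, rfl⟩
    · rintro Y ⟨-, Z, hZ, L, hL⟩ hSY
      exact hcon Z hZ L (hmono _ _ hSY hL)
  have h2 : J ⊆ {Y : Set Q | IsClosed Y ∧ ∃ Z ∈ J, ∃ L : List (Q ≃ₜ Q), Y ⊆ Z ∪ imgs L X} :=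
    fun Y hY => ⟨hJ.1.closed Y hY, Y, hY, [], subset_union_left⟩
  have h3 := hJ.2 h1 h2
  refine hXJ (h3 ⟨hX, ∅, hJ.1.empty, [Homeomorph.refl Q], ?_⟩)
  intro x hx
  exact Or.inr ⟨Homeomorph.refl Q, by simp, x, hx, rfl⟩

theorem exists_inter_S (hS : Robust S τ) (hJ : Maximal (ClosedIdeal S) J) {X Y : Set Q}
    (hX : IsClosed X) (hXJ : X ∉ J) (hSY : S Y) : ∃ N, X ∩ τ N '' Y ∉ J := by
  by_contra hcon
  push Not at hcon
  obtain ⟨Z, hZ, L, hL⟩ := exists_cover hJ hX hXJ hS.mono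
  have key : ∀ (L : List (Q ≃ₜ Q)) (Z : Set Q), Z ∈ J → ¬ S (Z ∪ imgs L X) := by
    intro L
    induction L with
    | nil =>
      intro Z hZ h
      rw [imgs_nil, union_empty] at h
      exact hJ.1.disj Z hZ h
    | cons h L ih =>
      intro Z hZ hSZ
      rw [imgs_cons] at hSZ
      obtain ⟨N, hN⟩ := hS.inter _ _ (hS.inv _ hSZ h.symm) hSY
      have h1 := hS.inv _ hN h
      refine ih (Z ∪ h '' (X ∩ τ N '' Y)) (hJ.1.union Z hZ _ (hJ.1.inv _ (hcon N) h))
        (hS.mono _ _ h1 ?_)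
      rintro _ ⟨y, ⟨⟨z, hz, rfl⟩, hy⟩, rfl⟩
      rw [h.apply_symm_apply]
      rcases hz with hz | ⟨x, hx, rfl⟩ | hz
      · exact Or.inl (Or.inl hz)
      · refine Or.inl (Or.inr ⟨x, ⟨hx, ?_⟩, rfl⟩)
        rwa [h.symm_apply_apply] at hy
      · exact Or.inr hz
  exact key L Z hZ hL

theorem exists_countable (hS : Robust S τ) (hJ : Maximal (ClosedIdeal S) J) {Y : Set Q}
    (hY : IsClosed Y) (hYJ : Y ∉ J) :
    ∃ g : ℕ → Q ≃ₜ Q, ∀ X : Set Q, IsClosed X → X ∉ J → ∃ j, X ∩ g j '' Y ∉ J := by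
  classical
  obtain ⟨Z, hZ, L, hL⟩ := exists_cover hJ hY hYJ hS.mono
  -- the countable family
  let G : ℕ × ℕ → Q ≃ₜ Q := fun p => (L.getD p.2 (Homeomorph.refl Q)).trans (τ p.1)
  obtain ⟨e, he⟩ := exists_surjective_nat (ℕ × ℕ)
  refine ⟨fun n => G (e n), fun X hX hXJ => ?_⟩
  obtain ⟨N, hN⟩ := exists_inter_S hS hJ hX hXJ hL
  by_contra hcon
  push Not at hcon
  have hcon' : ∀ p, X ∩ G p '' Y ∈ J := by
    intro p
    obtain ⟨n, hn⟩ := he p
    have := hcon n
    rwa [hn] at this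
  have hcl : ∀ Z : Set Q, IsClosed Z → IsClosed (X ∩ τ N '' Z) := fun Z hZ =>
    hX.inter ((τ N).isClosedMap Z hZ)
  have key : ∀ L' : List (Q ≃ₜ Q), (∀ h ∈ L', X ∩ (h.trans (τ N)) '' Y ∈ J) →
      X ∩ τ N '' imgs L' Y ∈ J := by
    intro L'
    induction L' with
    | nil =>
      intro _
      rw [imgs_nil, image_empty, inter_empty]
      exact hJ.1.empty
    | cons h L' ih =>
      intro hall
      have h1 := ih fun h' hh' => hall h' (List.mem_cons_of_mem _ hh')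
      have h2 := hall h List.mem_cons_self
      rw [imgs_cons, image_union, inter_union_distrib_left]
      refine hJ.1.union _ ?_ _ h1
      have h3 : (h.trans (τ N)) '' Y = τ N '' (h '' Y) := image_comp (τ N) h Y
      rwa [h3] at h2
  have h4 : X ∩ τ N '' imgs L Y ∈ J := by
    refine key L fun h hh => ?_
    obtain ⟨i, hi, hih⟩ := List.mem_iff_getElem.1 hh
    have := hcon' (N, i)
    simp only [G] at this
    rwa [List.getD_eq_getElem _ _ hi, hih] at this
  have h5 : X ∩ τ N '' Z ∈ J :=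
    hJ.1.mono _ (hJ.1.inv Z hZ (τ N)) _ (hcl Z (hJ.1.closed Z hZ)) inter_subset_right
  apply hN
  rw [image_union, inter_union_distrib_left]
  exact hJ.1.union _ h5 _ h4

/-- Decreasing sequences of closed sets which are not in `J`. -/
def Seqs (J : Set (Set Q)) : Type :=
  {Y : ℕ → Set Q // (∀ n, IsClosed (Y n) ∧ Y n ∉ J) ∧ ∀ n, Y (n + 1) ⊆ Y n}

theorem Seqs.anti (Y : Seqs J) {m n : ℕ} (h : m ≤ n) : Y.1 n ⊆ Y.1 m := by
  induction h with
  | refl => exact Subset.rfl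
  | step _ ih => exact (Y.2.2 _).trans ih

/-- the sequences which are eventually inside `X` -/
def Nb (J : Set (Set Q)) (X : Set Q) : Set (Seqs J) := {Y | ∃ n, Y.1 n ⊆ X}

instance : TopologicalSpace (Seqs J) where
  IsOpen O := ∀ Y ∈ O, ∃ n, Nb J (Y.1 n) ⊆ O
  isOpen_univ := fun _ _ => ⟨0, subset_univ _⟩
  isOpen_inter := by
    rintro O O' hO hO' Y ⟨hY, hY'⟩
    obtain ⟨n, hn⟩ := hO Y hY
    obtain ⟨n', hn'⟩ := hO' Y hY'
    refine ⟨max n n', fun W hW => ?_⟩
    obtain ⟨m, hm⟩ := hW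
    exact ⟨hn ⟨m, hm.trans (Y.anti (le_max_left _ _))⟩,
      hn' ⟨m, hm.trans (Y.anti (le_max_right _ _))⟩⟩
  isOpen_sUnion := by
    rintro c hc Y ⟨O, hO, hY⟩
    obtain ⟨n, hn⟩ := hc O hO Y hY
    exact ⟨n, hn.trans (subset_sUnion_of_mem hO)⟩

theorem isOpen_seqs_iff {O : Set (Seqs J)} : IsOpen O ↔ ∀ Y ∈ O, ∃ n, Nb J (Y.1 n) ⊆ O :=
  Iff.rfl

theorem isOpen_Nb (X : Set Q) : IsOpen (Nb J X) := by
  rw [isOpen_seqs_iff]
  rintro Y ⟨n, hn⟩
  exact ⟨n, fun W ⟨m, hm⟩ => ⟨m, hm.trans hn⟩⟩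

theorem self_mem_Nb (Y : Seqs J) (n : ℕ) : Y ∈ Nb J (Y.1 n) := ⟨n, Subset.rfl⟩

/-- the constant sequence -/
def constSeq {X : Set Q} (hX : IsClosed X) (hXJ : X ∉ J) : Seqs J :=
  ⟨fun _ => X, fun _ => ⟨hX, hXJ⟩, fun _ => Subset.rfl⟩

theorem Nb_nonempty {X : Set Q} (hX : IsClosed X) (hXJ : X ∉ J) : (Nb J X).Nonempty :=
  ⟨constSeq hX hXJ, 0, Subset.rfl⟩

theorem exists_Nb_subset {O : Set (Seqs J)} (hO : IsOpen O) (hne : O.Nonempty) :
    ∃ X : Set Q, IsClosed X ∧ X ∉ J ∧ Nb J X ⊆ O := by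
  obtain ⟨Y, hY⟩ := hne
  obtain ⟨n, hn⟩ := isOpen_seqs_iff.1 hO Y hY
  exact ⟨Y.1 n, (Y.2.1 n).1, (Y.2.1 n).2, hn⟩

instance : BaireSpace (Seqs J) where
  baire_property := by
    intro f hfo hfd
    rw [dense_iff_inter_open]
    intro O hO hne
    obtain ⟨X₀, hX₀, hX₀J, hX₀O⟩ := exists_Nb_subset hO hne
    have hstep : ∀ (n : ℕ) (X : {X : Set Q // IsClosed X ∧ X ∉ J}),
        ∃ X' : {X : Set Q // IsClosed X ∧ X ∉ J}, X'.1 ⊆ X.1 ∧ Nb J X'.1 ⊆ f n := by
      intro n X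
      obtain ⟨Y, ⟨m, hm⟩, hYf⟩ := (hfd n).inter_open_nonempty (Nb J X.1) (isOpen_Nb X.1)
        (Nb_nonempty X.2.1 X.2.2)
      obtain ⟨k, hk⟩ := isOpen_seqs_iff.1 (hfo n) Y hYf
      refine ⟨⟨Y.1 (max k m), Y.2.1 _⟩, (Y.anti (le_max_right _ _)).trans hm, ?_⟩
      rintro W ⟨j, hj⟩
      exact hk ⟨j, hj.trans (Y.anti (le_max_left _ _))⟩
    choose g hg1 hg2 using hstep
    let s : ℕ → {X : Set Q // IsClosed X ∧ X ∉ J} := fun n =>
      Nat.rec ⟨X₀, hX₀, hX₀J⟩ (fun i X => g i X) n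
    let Y : Seqs J := ⟨fun n => (s n).1, fun n => (s n).2, fun n => hg1 n (s n)⟩
    refine ⟨Y, hX₀O ⟨0, Subset.rfl⟩, mem_iInter.2 fun n => ?_⟩
    exact hg2 n (s n) ⟨n + 1, Subset.rfl⟩

/-! #### The action of homeomorphisms -/

theorem image_notMem (hJ : ClosedIdeal S J) (h : Q ≃ₜ Q) {X : Set Q} (hX : X ∉ J) :
    h '' X ∉ J := by
  intro hc
  apply hX
  have := hJ.inv _ hc h.symm
  rwa [← image_comp, h.symm_comp_self, image_id] at this

/-- the image of a sequence -/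
def mapSeq (hJ : ClosedIdeal S J) (h : Q ≃ₜ Q) (Y : Seqs J) : Seqs J :=
  ⟨fun n => h '' Y.1 n, fun n => ⟨h.isClosedMap _ (Y.2.1 n).1, image_notMem hJ h (Y.2.1 n).2⟩,
    fun n => image_mono (Y.2.2 n)⟩

theorem continuous_mapSeq (hJ : ClosedIdeal S J) (h : Q ≃ₜ Q) : Continuous (mapSeq hJ h) := by
  refine continuous_def.2 fun O hO => ?_
  rw [isOpen_seqs_iff]
  intro Y hY
  obtain ⟨n, hn⟩ := isOpen_seqs_iff.1 hO _ hY
  refine ⟨n, ?_⟩
  rintro W ⟨m, hm⟩
  exact hn ⟨m, image_mono hm⟩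

theorem mapSeq_symm (hJ : ClosedIdeal S J) (h : Q ≃ₜ Q) (Y : Seqs J) :
    mapSeq hJ h.symm (mapSeq hJ h Y) = Y := by
  apply Subtype.ext
  funext n
  change h.symm '' (h '' Y.1 n) = Y.1 n
  rw [← image_comp, h.symm_comp_self, image_id]

theorem mapSeq_symm' (hJ : ClosedIdeal S J) (h : Q ≃ₜ Q) (Y : Seqs J) :
    mapSeq hJ h (mapSeq hJ h.symm Y) = Y := by
  apply Subtype.ext
  funext n
  change h '' (h.symm '' Y.1 n) = Y.1 n
  rw [← image_comp, h.self_comp_symm, image_id]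

theorem isOpenMap_mapSeq (hJ : ClosedIdeal S J) (h : Q ≃ₜ Q) : IsOpenMap (mapSeq hJ h) := by
  intro O hO
  have h1 : mapSeq hJ h '' O = mapSeq hJ h.symm ⁻¹' O := by
    ext Y
    constructor
    · rintro ⟨W, hW, rfl⟩
      change mapSeq hJ h.symm (mapSeq hJ h W) ∈ O
      rwa [mapSeq_symm]
    · intro hY
      exact ⟨_, hY, mapSeq_symm' hJ h Y⟩
  rw [h1]
  exact hO.preimage (continuous_mapSeq hJ h.symm)

/-! #### Points of generic sequences -/

section Points

variable [CompactSpace Q] [T2Space Q] [SecondCountableTopology Q]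

theorem exists_pt (hJ : ClosedIdeal S J) : ∃ π : Seqs J → Q, ∀ Y n, π Y ∈ Y.1 n := by
  have h1 : ∀ Y : Seqs J, (⋂ n, Y.1 n).Nonempty := by
    intro Y
    refine IsCompact.nonempty_iInter_of_sequence_nonempty_isCompact_isClosed (fun n => Y.1 n)
      Y.2.2 ?_ (Y.2.1 0).1.isCompact (fun n => (Y.2.1 n).1)
    intro n
    rw [nonempty_iff_ne_empty]
    intro h
    exact (Y.2.1 n).2 (h ▸ hJ.empty)
  choose π hπ using h1
  exact ⟨π, fun Y n => mem_iInter.1 (hπ Y) n⟩

theorem residual_sep (hJ : ClosedIdeal S J) {F U : Set Q} (hF : IsClosed F) (hU : IsOpen U)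
    (hFU : F ⊆ U) : ∀ᵇ Y : Seqs J, ∃ n, Y.1 n ⊆ U ∨ Disjoint (Y.1 n) F := by
  apply residual_of_dense_open
  · rw [isOpen_seqs_iff]
    rintro Y ⟨n, hn⟩
    refine ⟨n, ?_⟩
    rintro W ⟨m, hm⟩
    exact ⟨m, hn.imp (fun h => hm.trans h) (fun h => h.mono_left hm)⟩
  · rw [dense_iff_inter_open]
    intro O hO hne
    obtain ⟨X, hX, hXJ, hXO⟩ := exists_Nb_subset hO hne
    obtain ⟨V, hV, hFV, hVU⟩ := normal_exists_closure_subset hF hU hFU
    have h1 : X \ V ∉ J ∨ X ∩ closure V ∉ J := by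
      by_contra hcon
      push Not at hcon
      refine hXJ (hJ.mono _ (hJ.union _ hcon.1 _ hcon.2) X hX fun x hx => ?_)
      by_cases hxV : x ∈ V
      · exact Or.inr ⟨hx, subset_closure hxV⟩
      · exact Or.inl ⟨hx, hxV⟩
    rcases h1 with h | h
    · refine ⟨constSeq (hX.sdiff hV) h, hXO ⟨0, sdiff_subset⟩, 0, Or.inr ?_⟩
      exact disjoint_left.2 fun x hx hxF => hx.2 (hFV hxF)
    · refine ⟨constSeq (hX.inter isClosed_closure) h, hXO ⟨0, inter_subset_left⟩, 0, Or.inl ?_⟩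
      exact fun x hx => hVU hx.2

theorem residual_open (hJ : ClosedIdeal S J) {U : Set Q} (hU : IsOpen U) :
    ∀ᵇ Y : Seqs J, ∀ x, (∀ n, x ∈ Y.1 n) → x ∈ U → ∃ n, Y.1 n ⊆ U := by
  letI := TopologicalSpace.metrizableSpaceMetric Q
  obtain ⟨F, hF, hFU, hFeq, -⟩ := hU.exists_iUnion_isClosed
  have h1 : ∀ᵇ Y : Seqs J, ∀ k, ∃ n, Y.1 n ⊆ U ∨ Disjoint (Y.1 n) (F k) :=
    eventually_countable_forall.2 fun k => residual_sep hJ (hF k) hU (hFU k)
  filter_upwards [h1] with Y hY x hx hxU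
  rw [← hFeq] at hxU
  obtain ⟨k, hk⟩ := mem_iUnion.1 hxU
  obtain ⟨n, h | h⟩ := hY k
  · exact ⟨n, h⟩
  · exact (disjoint_left.1 h (hx n) hk).elim

theorem residual_unique (hJ : ClosedIdeal S J) :
    ∀ᵇ Y : Seqs J, ∀ x y, (∀ n, x ∈ Y.1 n) → (∀ n, y ∈ Y.1 n) → x = y := by
  have h1 : ∀ᵇ Y : Seqs J, ∀ U ∈ TopologicalSpace.countableBasis Q,
      ∀ x, (∀ n, x ∈ Y.1 n) → x ∈ U → ∃ n, Y.1 n ⊆ U := by
    rw [eventually_countable_ball (TopologicalSpace.countable_countableBasis Q)]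
    exact fun U hU => residual_open hJ (TopologicalSpace.isOpen_of_mem_countableBasis hU)
  filter_upwards [h1] with Y hY x y hx hy
  by_contra hxy
  obtain ⟨U, hU, hxU, hUy⟩ := (TopologicalSpace.isBasis_countableBasis Q).exists_subset_of_mem_open
    (show x ∈ ({y} : Set Q)ᶜ from hxy) isOpen_compl_singleton
  obtain ⟨n, hn⟩ := hY U hU x hx hxU
  exact hUy (hn (hy n)) rfl

variable {π : Seqs J → Q}

theorem residual_pt_map (hJ : ClosedIdeal S J) (hπ : ∀ Y n, π Y ∈ Y.1 n) (h : Q ≃ₜ Q) :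
    ∀ᵇ Y : Seqs J, π (mapSeq hJ h Y) = h (π Y) := by
  filter_upwards [residual_unique hJ] with Y hY
  have h1 : ∀ n, h.symm (π (mapSeq hJ h Y)) ∈ Y.1 n := by
    intro n
    obtain ⟨y, hy, hye⟩ := hπ (mapSeq hJ h Y) n
    rw [← hye, h.symm_apply_apply]
    exact hy
  rw [← hY _ _ h1 (hπ Y), h.apply_symm_apply]

theorem baireMeasurable_preimage (hJ : ClosedIdeal S J) (hπ : ∀ Y n, π Y ∈ Y.1 n) {B : Set Q}
    (hB : @MeasurableSet Q (borel Q) B) : BaireMeasurableSet (π ⁻¹' B) := by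
  borelize Q
  induction B, hB using MeasurableSet.induction_on_open with
  | isOpen U hU =>
    refine (isOpen_Nb (J := J) U).baireMeasurableSet.congr ?_
    rw [eventuallyEq_set]
    filter_upwards [residual_open hJ hU] with Y hY
    constructor
    · rintro ⟨n, hn⟩
      exact hn (hπ Y n)
    · intro h
      exact hY _ (hπ Y) h
  | compl s _ ih => exact ih.compl
  | iUnion f _ _ ih =>
    rw [preimage_iUnion]
    exact BaireMeasurableSet.iUnion ih

/-- The ideal given by the generic points. -/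
def GenIdeal (π : Seqs J → Q) : Set (Set Q) :=
  {A | ∃ B, A ⊆ B ∧ @MeasurableSet Q (borel Q) B ∧ IsMeagre (π ⁻¹' B)}

theorem isSigmaIdeal_gen (π : Seqs J → Q) : IsSigmaIdeal (GenIdeal π) := by
  refine ⟨⟨∅, Subset.rfl, @MeasurableSet.empty Q (borel Q), ?_⟩, ?_, ?_⟩
  · rw [preimage_empty]; exact IsMeagre.empty
  · rintro A ⟨B, hAB, hB, hm⟩ A' hA'
    exact ⟨B, hA'.trans hAB, hB, hm⟩
  · intro A hA
    choose B hAB hB hm using hA
    refine ⟨⋃ n, B n, iUnion_mono hAB, @MeasurableSet.iUnion Q ℕ (borel Q) _ _ hB, ?_⟩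
    rw [preimage_iUnion]
    exact isMeagre_iUnion hm

omit [CompactSpace Q] [T2Space Q] [SecondCountableTopology Q] in
theorem measurable_image (h : Q ≃ₜ Q) {B : Set Q} (hB : @MeasurableSet Q (borel Q) B) :
    @MeasurableSet Q (borel Q) (h '' B) := by
  borelize Q
  exact h.measurableEmbedding.measurableSet_image.2 hB

theorem isMeagre_image (hJ : ClosedIdeal S J) (hπ : ∀ Y n, π Y ∈ Y.1 n) (h : Q ≃ₜ Q) {B : Set Q}
    (hm : IsMeagre (π ⁻¹' B)) : IsMeagre (π ⁻¹' (h '' B)) := by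
  have h1 : IsMeagre (mapSeq hJ h.symm ⁻¹' (π ⁻¹' B)) :=
    IsMeagre.preimage_of_isOpenMap (continuous_mapSeq hJ h.symm) (isOpenMap_mapSeq hJ h.symm) hm
  have h2 := residual_pt_map hJ hπ h.symm
  have h3 : ∀ᵇ Y : Seqs J, Y ∉ π ⁻¹' (h '' B) := by
    filter_upwards [h1, h2] with Y hY1 hY2 hY3
    apply hY1
    obtain ⟨b, hb, hbe⟩ := hY3
    change π (mapSeq hJ h.symm Y) ∈ B
    rw [hY2, ← hbe, h.symm_apply_apply]
    exact hb
  exact h3

theorem topInvariant_gen (hJ : ClosedIdeal S J) (hπ : ∀ Y n, π Y ∈ Y.1 n) :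
    TopInvariant (GenIdeal π) := by
  rintro A ⟨B, hAB, hB, hm⟩ h
  exact ⟨h '' B, image_mono hAB, measurable_image h hB, isMeagre_image hJ hπ h hm⟩

theorem hasBorelBase_gen (π : Seqs J → Q) : HasBorelBase (GenIdeal π) := by
  rintro A ⟨B, hAB, hB, hm⟩
  exact ⟨B, ⟨B, Subset.rfl, hB, hm⟩, hAB, hB⟩

theorem seqs_nonempty (hS : Robust S τ) (hJ : ClosedIdeal S J) : Nonempty (Seqs J) :=
  ⟨constSeq isClosed_univ fun h => hJ.disj _ h hS.univ⟩

theorem univ_notMem_gen (hS : Robust S τ) (hJ : ClosedIdeal S J) (π : Seqs J → Q) :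
    univ ∉ GenIdeal π := by
  rintro ⟨B, hB, -, hm⟩
  have := seqs_nonempty hS hJ
  rw [univ_subset_iff] at hB
  rw [hB, preimage_univ] at hm
  exact not_isMeagre_of_isOpen isOpen_univ univ_nonempty hm

/-- If the preimage of a Borel set is not meagre then it is comeagre in a basic open set. -/
theorem exists_Nb_of_not_meagre (hJ : ClosedIdeal S J) (hπ : ∀ Y n, π Y ∈ Y.1 n) {B : Set Q}
    (hB : @MeasurableSet Q (borel Q) B) (hm : ¬ IsMeagre (π ⁻¹' B)) :
    ∃ X : Set Q, IsClosed X ∧ X ∉ J ∧ ∀ᵇ Y : Seqs J, Y ∈ Nb J X → π Y ∈ B := by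
  obtain ⟨O, hO, hBO⟩ := (baireMeasurable_preimage hJ hπ hB).residualEq_isOpen
  have hne : O.Nonempty := by
    rw [nonempty_iff_ne_empty]
    rintro rfl
    apply hm
    rw [eventuallyEq_set] at hBO
    have : ∀ᵇ Y : Seqs J, Y ∉ π ⁻¹' B := by
      filter_upwards [hBO] with Y hY h
      exact hY.1 h
    exact this
  obtain ⟨X, hX, hXJ, hXO⟩ := exists_Nb_subset hO hne
  refine ⟨X, hX, hXJ, ?_⟩
  rw [eventuallyEq_set] at hBO
  filter_upwards [hBO] with Y hY h
  exact hY.2 (hXO h)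

/-- Every Borel set outside the ideal covers the space by countably many images, up to the ideal. -/
theorem exists_full (hS : Robust S τ) (hJ : Maximal (ClosedIdeal S) J)
    (hπ : ∀ Y n, π Y ∈ Y.1 n) {B : Set Q} (hB : @MeasurableSet Q (borel Q) B)
    (hm : ¬ IsMeagre (π ⁻¹' B)) :
    ∃ g : ℕ → Q ≃ₜ Q, IsMeagre (π ⁻¹' (⋃ j, g j '' B)ᶜ) := by
  obtain ⟨Y, hY, hYJ, hcom⟩ := exists_Nb_of_not_meagre hJ.1 hπ hB hm
  obtain ⟨g, hg⟩ := exists_countable hS hJ hY hYJ
  refine ⟨g, ?_⟩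
  have hC : @MeasurableSet Q (borel Q) (⋃ j, g j '' B)ᶜ :=
    @MeasurableSet.compl Q _ (borel Q)
      (@MeasurableSet.iUnion Q ℕ (borel Q) _ _ fun j => measurable_image (g j) hB)
  by_contra hnm
  obtain ⟨X, hX, hXJ, hcomX⟩ := exists_Nb_of_not_meagre hJ.1 hπ hC hnm
  obtain ⟨j, hj⟩ := hg X hX hXJ
  have hZ : IsClosed (X ∩ g j '' Y) := hX.inter ((g j).isClosedMap Y hY)
  -- transport along `g j`
  have h1 : ∀ᵇ W : Seqs J, mapSeq hJ.1 (g j).symm W ∈ Nb J Y →
      π (mapSeq hJ.1 (g j).symm W) ∈ B :=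
    (tendsto_residual_of_isOpenMap (continuous_mapSeq hJ.1 (g j).symm)
      (isOpenMap_mapSeq hJ.1 (g j).symm)).eventually hcom
  have h2 := residual_pt_map hJ.1 hπ (g j).symm
  have h3 : ∀ᵇ W : Seqs J, W ∉ Nb J (X ∩ g j '' Y) := by
    filter_upwards [h1, h2, hcomX] with W hW1 hW2 hW3 hW
    obtain ⟨n, hn⟩ := hW
    have h4 : mapSeq hJ.1 (g j).symm W ∈ Nb J Y := by
      refine ⟨n, ?_⟩
      rintro _ ⟨w, hw, rfl⟩
      obtain ⟨y, hy, hye⟩ := (hn hw).2
      rw [← hye, (g j).symm_apply_apply]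
      exact hy
    have h5 := hW1 h4
    rw [hW2] at h5
    refine hW3 ⟨n, hn.trans inter_subset_left⟩ (mem_iUnion.2 ⟨j, _, h5, ?_⟩)
    exact (g j).apply_symm_apply _
  exact not_isMeagre_of_isOpen (isOpen_Nb (J := J) (X ∩ g j '' Y)) (Nb_nonempty hZ hj) h3

theorem exists_maximal_ideal (hS : Robust S τ) {W : Set Q} (hW : IsClosed W) (hSW : S W)
    (hWi : interior W = ∅) :
    ∃ I : Set (Set Q), IsMaximalIdeal I ∧ ∃ G ∈ I, ¬ IsMeagre G := by
  have hne : Nonempty Q := by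
    by_contra hcon
    rw [not_nonempty_iff] at hcon
    have : W = ∅ := eq_empty_of_isEmpty W
    exact hS.ne (this ▸ hSW)
  obtain ⟨J, hJ⟩ := exists_maximal_closedIdeal hS
  obtain ⟨π, hπ⟩ := exists_pt hJ.1
  -- the dense `G_δ` set
  let G : Set Q := (⋃ N, τ N '' W)ᶜ
  have hGm : @MeasurableSet Q (borel Q) G := by
    borelize Q
    exact (MeasurableSet.iUnion fun N => ((τ N).isClosedMap W hW).measurableSet).compl
  have hG1 : IsMeagre (π ⁻¹' G) := by
    have h1 : ∀ᵇ Y : Seqs J, ∃ N, Y ∈ Nb J (τ N '' W) := by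
      apply residual_of_dense_open
      · have h2 : {Y : Seqs J | ∃ N, Y ∈ Nb J (τ N '' W)} = ⋃ N, Nb J (τ N '' W) := by
          ext Y; simp
        change IsOpen {Y : Seqs J | ∃ N, Y ∈ Nb J (τ N '' W)}
        rw [h2]
        exact isOpen_iUnion fun N => isOpen_Nb _
      · rw [dense_iff_inter_open]
        intro O hO hne
        obtain ⟨X, hX, hXJ, hXO⟩ := exists_Nb_subset hO hne
        obtain ⟨N, hN⟩ := exists_inter_S hS hJ hX hXJ hSW
        exact ⟨constSeq (hX.inter ((τ N).isClosedMap W hW)) hN, hXO ⟨0, inter_subset_left⟩,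
          N, 0, inter_subset_right⟩
    have h3 : ∀ᵇ Y : Seqs J, Y ∉ π ⁻¹' G := by
      filter_upwards [h1] with Y hY hYG
      obtain ⟨N, n, hn⟩ := hY
      exact hYG (mem_iUnion.2 ⟨N, hn (hπ Y n)⟩)
    exact h3
  have hG2 : G ∈ residual Q := by
    have h1 : G = ⋂ N, (τ N '' W)ᶜ := compl_iUnion _
    rw [h1, countable_iInter_mem]
    intro N
    refine residual_of_dense_open ((τ N).isClosedMap W hW).isOpen_compl ?_
    rw [← interior_eq_empty_iff_dense_compl, ← (τ N).image_interior, hWi, image_empty]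
  have hGn : ¬ IsMeagre G := by
    intro h
    have h1 : G ∩ Gᶜ ∈ residual Q := inter_mem hG2 h
    rw [inter_compl_self] at h1
    have h2 := dense_of_mem_residual h1
    have h3 := h2.nonempty
    simp at h3
  have hGI : G ∈ GenIdeal π := ⟨G, Subset.rfl, hGm, hG1⟩
  refine ⟨GenIdeal π, ⟨⟨isSigmaIdeal_gen π, topInvariant_gen hJ.1 hπ, hasBorelBase_gen π,
    univ_notMem_gen hS hJ.1 π, ?_⟩, ?_⟩, G, hGI, hGn⟩
  · intro h
    rw [h, mem_singleton_iff] at hGI
    rw [hGI] at hGn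
    exact hGn IsMeagre.empty
  · rintro K ⟨hK1, hK2, hK3, hK4⟩ hIK
    refine Subset.antisymm ?_ hIK
    intro A hA
    obtain ⟨B, hBK, hAB, hB⟩ := hK3 A hA
    by_contra hAI
    have hnm : ¬ IsMeagre (π ⁻¹' B) := fun h => hAI ⟨B, hAB, hB, h⟩
    obtain ⟨g, hg⟩ := exists_full hS hJ hπ hB hnm
    have hC : @MeasurableSet Q (borel Q) (⋃ j, g j '' B)ᶜ :=
      @MeasurableSet.compl Q _ (borel Q)
        (@MeasurableSet.iUnion Q ℕ (borel Q) _ _ fun j => measurable_image (g j) hB)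
    have hCI : (⋃ j, g j '' B)ᶜ ∈ K := hIK ⟨_, Subset.rfl, hC, hg⟩
    apply hK4.1
    have h1 := hK1.2.2 (fun n => Nat.casesOn n (⋃ j, g j '' B)ᶜ fun j => g j '' B) (by
      intro n
      cases n with
      | zero => exact hCI
      | succ j => exact hK2 B hBK (g j))
    refine hK1.2.1 _ h1 univ fun x _ => ?_
    by_cases hx : x ∈ ⋃ j, g j '' B
    · obtain ⟨j, hj⟩ := mem_iUnion.1 hx
      exact mem_iUnion.2 ⟨j + 1, hj⟩
    · exact mem_iUnion.2 ⟨0, hx⟩

end Points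

end Abstract

/-! ### Part 2: essential subsets of the Hilbert cube -/

section Concrete

/-- The Hilbert cube. -/
abbrev HC : Type := ℕ → unitInterval

/-- `X` contains the zero set of a continuous map to `ℝ^k` which, along some singular `k`-cube,
satisfies the (strict) sign conditions of the theorem of Poincaré and Miranda. -/
def Ess (X : Set HC) : Prop :=
  ∃ (k : ℕ) (c : (Fin k → ℝ) → HC) (f : HC → Fin k → ℝ), Continuous c ∧ Continuous f ∧
    (∀ x, f x = 0 → x ∈ X) ∧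
    ∀ t : Fin k → ℝ, (∀ i, 0 ≤ t i ∧ t i ≤ 1) → ∀ j,
      (t j = 0 → f (c t) j < 0) ∧ (t j = 1 → 0 < f (c t) j)

theorem ess_ne : ¬ Ess ∅ := by
  rintro ⟨k, c, f, hc, hf, hX, h⟩
  obtain ⟨x, hx, hx0⟩ := H63Fed.Miranda.poincare_miranda k (fun t => f (c t))
    (hf.comp hc).continuousOn (fun t ht i hi => ((h t ht i).1 hi).le)
    (fun t ht i hi => ((h t ht i).2 hi).le)
  exact hX _ hx0

theorem ess_univ : Ess univ :=
  ⟨0, fun _ => 0, fun _ => 0, continuous_const, continuous_const, fun _ _ => mem_univ _,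
    fun _ _ j => j.elim0⟩

theorem ess_mono (X Y : Set HC) (hX : Ess X) (hXY : X ⊆ Y) : Ess Y := by
  obtain ⟨k, c, f, hc, hf, h1, h2⟩ := hX
  exact ⟨k, c, f, hc, hf, fun x hx => hXY (h1 x hx), h2⟩

theorem ess_inv (X : Set HC) (hX : Ess X) (h : HC ≃ₜ HC) : Ess (h '' X) := by
  obtain ⟨k, c, f, hc, hf, h1, h2⟩ := hX
  refine ⟨k, fun t => h (c t), fun x => f (h.symm x), h.continuous.comp hc,
    hf.comp h.symm.continuous, fun x hx => ⟨h.symm x, h1 _ hx, h.apply_symm_apply x⟩, ?_⟩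
  intro t ht j
  simp only [h.symm_apply_apply]
  exact h2 t ht j

theorem exists_stable {k : ℕ} {c : (Fin k → ℝ) → HC} {f : HC → Fin k → ℝ} (hc : Continuous c)
    (hf : Continuous f)
    (h : ∀ t : Fin k → ℝ, (∀ i, 0 ≤ t i ∧ t i ≤ 1) → ∀ j,
      (t j = 0 → f (c t) j < 0) ∧ (t j = 1 → 0 < f (c t) j)) :
    ∃ N₀ : ℕ, ∀ N ≥ N₀, ∀ t : Fin k → ℝ, (∀ i, 0 ≤ t i ∧ t i ≤ 1) → ∀ x : HC,
      (∀ i < N, x i = c t i) → ∀ j, (t j = 0 → f x j < 0) ∧ (t j = 1 → 0 < f x j) := by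
  classical
  let A : ℕ → Set ((Fin k → ℝ) × HC) := fun N =>
    {p | p.1 ∈ Set.pi univ (fun _ : Fin k => Icc (0 : ℝ) 1)} ∩
      ((⋃ j : Fin k, ({p | p.1 j = 0 ∧ 0 ≤ f p.2 j} ∪ {p | p.1 j = 1 ∧ f p.2 j ≤ 0})) ∩
      ⋂ i : ℕ, ⋂ _ : i < N, {p | p.2 i = c p.1 i})
  have hAcl : ∀ N, IsClosed (A N) := by
    intro N
    refine IsClosed.inter ?_ (IsClosed.inter ?_ ?_)
    · exact (isClosed_set_pi fun _ _ => isClosed_Icc).preimage continuous_fst
    · refine isClosed_iUnion_of_finite fun j => IsClosed.union ?_ ?_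
      · exact (isClosed_eq (f := fun p : (Fin k → ℝ) × HC => p.1 j) (g := fun _ => (0 : ℝ))
          (by fun_prop) continuous_const).inter
          (isClosed_le (f := fun _ : (Fin k → ℝ) × HC => (0 : ℝ)) (g := fun p => f p.2 j)
            continuous_const (by fun_prop))
      · exact (isClosed_eq (f := fun p : (Fin k → ℝ) × HC => p.1 j) (g := fun _ => (1 : ℝ))
          (by fun_prop) continuous_const).inter
          (isClosed_le (f := fun p : (Fin k → ℝ) × HC => f p.2 j) (g := fun _ => (0 : ℝ))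
            (by fun_prop) continuous_const)
    · exact isClosed_iInter fun i => isClosed_iInter fun _ =>
        isClosed_eq (by fun_prop) (by fun_prop)
  have hA0 : IsCompact (A 0) := by
    refine IsCompact.of_isClosed_subset ((isCompact_univ_pi fun _ : Fin k =>
      (isCompact_Icc : IsCompact (Icc (0 : ℝ) 1))).prod (isCompact_univ (X := HC))) (hAcl 0) ?_
    rintro ⟨t, x⟩ ⟨h1, -⟩
    exact ⟨h1, mem_univ _⟩
  have hmono : ∀ N, A (N + 1) ⊆ A N := by
    rintro N p ⟨h1, h2, h3⟩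
    refine ⟨h1, h2, ?_⟩
    simp only [mem_iInter] at h3 ⊢
    exact fun i hi => h3 i (by omega)
  by_contra hcon
  push Not at hcon
  have hne : ∀ N, (A N).Nonempty := by
    intro N
    obtain ⟨M, hM, t, ht, x, hx, j, hj⟩ := hcon N
    refine ⟨(t, x), fun i _ => ht i, mem_iUnion.2 ⟨j, ?_⟩, ?_⟩
    · by_cases h1 : t j = 0 → f x j < 0
      · obtain ⟨h2, h3⟩ := hj h1
        exact Or.inr ⟨h2, h3⟩
      · push Not at h1
        exact Or.inl h1
    · simp only [mem_iInter]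
      exact fun i hi => hx i (by omega)
  obtain ⟨⟨t, x⟩, hp⟩ := IsCompact.nonempty_iInter_of_sequence_nonempty_isCompact_isClosed A hmono
    hne hA0 hAcl
  rw [mem_iInter] at hp
  have hxc : x = c t := by
    funext i
    have h1 := (hp (i + 1)).2.2
    simp only [mem_iInter] at h1
    exact h1 i (by omega)
  have ht : ∀ i, 0 ≤ t i ∧ t i ≤ 1 := fun i => (hp 0).1 i (mem_univ _)
  obtain ⟨j, hj⟩ := mem_iUnion.1 (hp 0).2.1
  rcases hj with ⟨h1, h2⟩ | ⟨h1, h2⟩
  · change 0 ≤ f x j at h2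
    rw [hxc] at h2
    exact absurd ((h t ht j).1 h1) (not_lt.2 h2)
  · change f x j ≤ 0 at h2
    rw [hxc] at h2
    exact absurd ((h t ht j).2 h1) (not_lt.2 h2)

/-- The involution of `ℕ` which exchanges the blocks `[0, N)` and `[N, 2N)`. -/
def sw (N i : ℕ) : ℕ := if i < N then i + N else if i < 2 * N then i - N else i

theorem sw_sw (N i : ℕ) : sw N (sw N i) = i := by
  unfold sw
  split_ifs <;> omega

/-- The corresponding involution of the Hilbert cube. -/
def tau (N : ℕ) : HC ≃ₜ HC where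
  toFun x := fun i => x (sw N i)
  invFun x := fun i => x (sw N i)
  left_inv x := by funext i; simp only [sw_sw]
  right_inv x := by funext i; simp only [sw_sw]
  continuous_toFun := by fun_prop
  continuous_invFun := by fun_prop

theorem tau_apply (N : ℕ) (x : HC) (i : ℕ) : tau N x i = x (sw N i) := rfl

theorem tau_tau (N : ℕ) (x : HC) : tau N (tau N x) = x := (tau N).left_inv x

theorem ess_inter (X Y : Set HC) (hX : Ess X) (hY : Ess Y) : ∃ N, Ess (X ∩ tau N '' Y) := by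
  obtain ⟨k, c, f, hc, hf, h1, h2⟩ := hX
  obtain ⟨l, d, g, hd, hg, h3, h4⟩ := hY
  obtain ⟨N₀, hN₀⟩ := exists_stable hc hf h2
  obtain ⟨N₁, hN₁⟩ := exists_stable hd hg h4
  have hN₀' := hN₀ (max N₀ N₁) (le_max_left _ _)
  have hN₁' := hN₁ (max N₀ N₁) (le_max_right _ _)
  generalize max N₀ N₁ = N at hN₀' hN₁'
  refine ⟨N, k + l, fun t i => if i < N then c (fun a => t (Fin.castAdd l a)) i
    else if i < 2 * N then d (fun b => t (Fin.natAdd k b)) (i - N) else 0,
    fun x => Fin.append (f x) (g (tau N x)), ?_, ?_, ?_, ?_⟩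
  · refine continuous_pi fun i => ?_
    by_cases hi : i < N
    · simp only [hi, if_true]
      fun_prop
    · by_cases hi' : i < 2 * N
      · simp only [hi, hi', if_true, if_false]
        fun_prop
      · simp only [hi, hi', if_false]
        fun_prop
  · refine continuous_pi fun j => ?_
    refine Fin.addCases (fun a => ?_) (fun b => ?_) j
    · simp only [Fin.append_left]
      fun_prop
    · simp only [Fin.append_right]
      exact (continuous_apply b).comp (hg.comp (tau N).continuous)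
  · intro x hx
    refine ⟨h1 x ?_, tau N x, h3 _ ?_, tau_tau N x⟩
    · funext a
      have := congrFun hx (Fin.castAdd l a)
      simpa only [Fin.append_left, Pi.zero_apply] using this
    · funext b
      have := congrFun hx (Fin.natAdd k b)
      simpa only [Fin.append_right, Pi.zero_apply] using this
  · intro t ht j
    refine Fin.addCases (fun a => ?_) (fun b => ?_) j
    · simp only [Fin.append_left]
      refine hN₀' (fun a => t (Fin.castAdd l a)) (fun a => ht _) _ ?_ a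
      intro i hi
      simp only [hi, if_true]
    · simp only [Fin.append_right]
      refine hN₁' (fun b => t (Fin.natAdd k b)) (fun b => ht _) _ ?_ b
      intro i hi
      rw [tau_apply]
      have h5 : sw N i = i + N := by simp [sw, hi]
      have h6 : ¬ i + N < N := by omega
      have h7 : i + N < 2 * N := by omega
      simp only [h5, h6, h7, if_true, if_false, Nat.add_sub_cancel]

theorem robust_ess : Robust Ess tau where
  ne := ess_ne
  univ := ess_univ
  mono := ess_mono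
  inv := ess_inv
  inter := ess_inter

/-- A wall of the Hilbert cube. -/
def wall : Set HC := (fun x : HC => x 0) ⁻¹' {⟨1 / 2, by norm_num, by norm_num⟩}

theorem isClosed_wall : IsClosed wall :=
  isClosed_singleton.preimage (continuous_apply 0)

theorem interior_wall : interior wall = ∅ := by
  have h1 : IsOpenMap (fun x : HC => x 0) := isOpenMap_eval 0
  rw [wall, ← h1.preimage_interior_eq_interior_preimage (continuous_apply 0), interior_singleton,
    preimage_empty]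

theorem ess_wall : Ess wall := by
  refine ⟨1, fun t _ => projIcc 0 1 zero_le_one (t 0), fun x _ => (x 0 : ℝ) - 1 / 2, ?_, ?_, ?_, ?_⟩
  · exact continuous_pi fun _ => continuous_projIcc.comp (continuous_apply 0)
  · fun_prop
  · intro x hx
    have h1 := congrFun hx 0
    change (x 0 : ℝ) - 1 / 2 = 0 at h1
    change x 0 = _
    apply Subtype.ext
    change (x 0 : ℝ) = 1 / 2
    linarith
  · intro t ht j
    have hj : j = 0 := Subsingleton.elim _ _
    subst hj
    constructor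
    · intro h
      simp only [h]
      rw [projIcc_left]
      norm_num
    · intro h
      simp only [h]
      rw [projIcc_right]
      norm_num

end Concrete

/-- **There is a maximal non-trivial topologically invariant `σ`-ideal with Borel base on the
Hilbert cube which is different from the ideal of meagre sets.** -/
theorem result : ∃ I : Set (Set (ℕ → unitInterval)),
    IsMaximalIdeal I ∧ I ≠ {A | IsMeagre A} := by
  obtain ⟨I, hI, G, hG, hGn⟩ := exists_maximal_ideal robust_ess isClosed_wall ess_wall interior_wall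
  refine ⟨I, hI, fun h => hGn ?_⟩
  rw [h] at hG
  exact hG

end Pool.Agent.Results.MP_1f3233_gt.NonMeagerMaximal
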